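import Mathlib
import Pool.Agent.R421.EK.Lim

/-!
# The dimensions of the 2-Selmer groups of the curves with a rational cyclic subgroup of order four

The curves `y² = x³ + A x + B`, `A, B` integers, with a rational cyclic subgroup of order `4`, ordered
by the height `max (|A|³, |B|²)`. Such a curve with such a subgroup corresponds to a pair `(e, N)` of
integers: `e` is a root of `x³ + A x + B`, `3 e² + A = N²`, and the subgroup is generated by the points
with abscissa `e + N`. Then `A = N² - 3 e²` and `B = 2 e³ - N² e`.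

The dimension of the 2-Selmer group has a Gaussian law of mean `(3 / 2) log log Z` and variance
`(5 / 2) log log Z` for the curves of height at most `Z`; the density of the curves with
`dim Sel₂ = s` is zero for every `s`. But the rank is bounded by `R(ε)` outside a proportion `ε` of the
curves, and so is the dimension of the 2-Selmer group of the quotient by the point `(e, 0)`, which has
full rational 2-torsion.
-/

set_option autoImplicit false

namespace Pool.Agent.Results.MP_8cb858_nt.FourIsogenySelmerLaw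

open Filter Topology

open Pool.Agent.Y667.SX (Sel2H)

/-- the curve `y² = x³ + A x + B` over `ℚ` -/
def E (A B : ℤ) : WeierstrassCurve ℚ := ⟨0, 0, 0, (A : ℚ), (B : ℚ)⟩

/-- the coefficient `A = N² - 3 e²` -/
def cA (t : ℤ × ℤ) : ℤ := t.2 ^ 2 - 3 * t.1 ^ 2

/-- the coefficient `B = 2 e³ - N² e` -/
def cB (t : ℤ × ℤ) : ℤ := 2 * t.1 ^ 3 - t.2 ^ 2 * t.1

/-- The pairs `t = (e, N)` such that `y² = x³ + A x + B`, `A = cA t`, `B = cB t`, is nonsingular and its
height `max (|A|³, |B|²)` is at most `Z`: the elliptic curves of height at most `Z` together with a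
rational cyclic subgroup of order four (see `marked`). -/
def Fam (Z : ℕ) : Set (ℤ × ℤ) :=
  {t | 4 * cA t ^ 3 + 27 * cB t ^ 2 ≠ 0 ∧ |cA t| ^ 3 ≤ Z ∧ |cB t| ^ 2 ≤ Z}

/-- `A = cA (e, N)` and `B = cB (e, N)` if and only if `e` is a root of `x³ + A x + B` and
`3 e² + A = N²`. (Then the points with abscissa `e + N` have order four, their double is `(e, 0)`.) -/
theorem marked (A B e N : ℤ) :
    (A = cA (e, N) ∧ B = cB (e, N)) ↔ (e ^ 3 + A * e + B = 0 ∧ 3 * e ^ 2 + A = N ^ 2) := by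
  unfold cA cB
  constructor
  · rintro ⟨rfl, rfl⟩
    constructor <;> ring
  · rintro ⟨h1, h2⟩
    have hA : A = N ^ 2 - 3 * e ^ 2 := by linarith
    refine ⟨hA, ?_⟩
    rw [hA] at h1
    linarith

/-- the quotient of `E (cA t) (cB t)` by the point `(e, 0)`:
`y² = x³ - 6 e x² + (9 e² - 4 N²) x = x (x - (3 e + 2 N)) (x - (3 e - 2 N))` -/
def quotient (t : ℤ × ℤ) : WeierstrassCurve ℚ :=
  ⟨0, -6 * (t.1 : ℚ), 0, 9 * (t.1 : ℚ) ^ 2 - 4 * (t.2 : ℚ) ^ 2, 0⟩

/-- the proportion of the curves of `S` among the curves of height at most `Z` -/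
noncomputable def proportion (S : Set (ℤ × ℤ)) (Z : ℕ) : ℝ :=
  ((Fam Z ∩ S).ncard : ℝ) / (Fam Z).ncard

/-- the dimension of the 2-Selmer group: the binary logarithm of its order -/
noncomputable def dimSel (W : WeierstrassCurve ℚ) : ℝ := Real.logb 2 (Nat.card (Sel2H W))

/-- the rank -/
noncomputable def rank (W : WeierstrassCurve ℚ) : ℕ := Module.finrank ℤ W.toAffine.Point

/-- `log log Z` -/
noncomputable def loglog (Z : ℕ) : ℝ := Real.log (Real.log Z)

/-- the distribution function of the Gaussian law with mean `0` and variance `5 / 2` -/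
noncomputable def G (x : ℝ) : ℝ := (ProbabilityTheory.gaussianReal 0 (5 / 2)).real (Set.Iic x)

section proof

open Pool.Agent.R421.EK (Fht Hb Cc FS fht_fin ht_lim ht_zero ht_tight disc_iff Oks Stat stat_of
  fam_sel full_sel Shq Lg lf muT_one)

open Pool.Agent.R431.NO (OkS)

lemma fam_eq (Z : ℕ) : Fam Z = {t | Fht (1, 1) Z t} := by
  ext t
  unfold Fam Fht Hb
  rw [Set.mem_ofPred_eq, Set.mem_ofPred_eq]
  have h := disc_iff t.1 t.2
  constructor
  · rintro ⟨h1, h2, h3⟩
    refine ⟨⟨?_, ?_⟩, h.1 h1⟩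
    · change ((1 : ℕ) : ℤ) * |cA t| ^ 3 ≤ Z
      push_cast
      linarith
    · change ((1 : ℕ) : ℤ) * cB t ^ 2 ≤ Z
      rw [sq_abs] at h3
      push_cast
      linarith
  · rintro ⟨⟨h2, h3⟩, h1⟩
    refine ⟨h.2 h1, ?_, ?_⟩
    · have h2' : ((1 : ℕ) : ℤ) * |cA t| ^ 3 ≤ Z := h2
      push_cast at h2'
      linarith
    · have h3' : ((1 : ℕ) : ℤ) * cB t ^ 2 ≤ Z := h3
      push_cast at h3'
      rw [sq_abs]
      linarith

lemma cc : Cc (1, 1) := ⟨le_rfl, by norm_num, le_rfl, by norm_num⟩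

lemma prop_eq (S : Set (ℤ × ℤ)) (Z : ℕ) :
    proportion S Z = (FS (1, 1) Z S : ℝ) / (FS (1, 1) Z Set.univ : ℝ) := by
  unfold proportion FS
  have e1 : {t : ℤ × ℤ | Fht (1, 1) Z t ∧ t ∈ S} = Fam Z ∩ S := by
    rw [fam_eq]
    rfl
  have e2 : {t : ℤ × ℤ | Fht (1, 1) Z t ∧ t ∈ (Set.univ : Set (ℤ × ℤ))} = Fam Z := by
    rw [fam_eq]
    ext t
    simp
  rw [e1, e2]

lemma E_eq (e N : ℤ) : E (cA (e, N)) (cB (e, N)) =
    Shq ((1 : ℤ) ^ 2 * (N ^ 2 - 3 * e ^ 2)) ((1 : ℤ) ^ 3 * (2 * e ^ 3 - N ^ 2 * e)) := by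
  unfold E cA cB Shq
  simp only [one_pow, one_mul]

/-- the statistic -/
lemma stat : ∃ Λ : ℤ × ℤ → Fin 3 × Fin 1 → ℝ, (∀ t l, Λ t (0, l) = dimSel (E (cA t) (cB t))) ∧
    Stat (fun _ => 1) Λ (fun t => ∀ _ : Fin 1, Finite (Sel2H (E (cA t) (cB t)))) := by
  obtain ⟨Λ, h1, h2⟩ := stat_of (n := 1) (fun _ => 1)
    (fun D e N => Real.logb 2 (Nat.card (Sel2H (Shq (D ^ 2 * (N ^ 2 - 3 * e ^ 2))
      (D ^ 3 * (2 * e ^ 3 - N ^ 2 * e))))))
    (fun D e N => Finite (Sel2H (Shq (D ^ 2 * (N ^ 2 - 3 * e ^ 2))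
      (D ^ 3 * (2 * e ^ 3 - N ^ 2 * e)))))
    (fun R => ⟨R + ((R + 1 : ℕ) : ℝ) + ((R + 2 : ℕ) : ℝ), fun D e N S h => by
      obtain ⟨-, -, ⟨-, k1, k2⟩, -⟩ := fam_sel h
      have hR : (0 : ℝ) ≤ R := Nat.cast_nonneg _
      rw [abs_le]
      push_cast at k1 k2 ⊢
      constructor <;> linarith⟩)
    (fun R D e N S h => (fam_sel h).2.2.1.1)
  refine ⟨Λ, fun t l => ?_, ?_⟩
  · rw [h1]
    unfold dimSel
    rw [show t = (t.1, t.2) from rfl, E_eq]
  · have e1 : (fun t : ℤ × ℤ => ∀ _ : Fin 1, Finite (Sel2H (E (cA t) (cB t)))) =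
        (fun t : ℤ × ℤ => ∀ l : Fin 1, Finite (Sel2H (Shq ((1 : ℤ) ^ 2 * (t.2 ^ 2 - 3 * t.1 ^ 2))
          ((1 : ℤ) ^ 3 * (2 * t.1 ^ 3 - t.2 ^ 2 * t.1))))) := by
      funext t
      rw [← E_eq]
    rw [e1]
    exact h2

lemma quot_eq (t : ℤ × ℤ) : quotient t = Pool.Agent.TH841.PT.EQ (1 * (3 * t.1 + 2 * t.2))
    (1 * (3 * t.1 - 2 * t.2)) := by
  unfold quotient Pool.Agent.TH841.PT.EQ
  congr 1
  · push_cast
    ring
  · push_cast
    ring

end proof

open Pool.Agent.R421.EK (ht_lim ht_zero ht_tight muT_one Lg fam_sel full_sel)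

/-- **Theorem.** For the elliptic curves `E : y² = x³ + A x + B`, `A, B` integers, with a rational
cyclic subgroup of order four, ordered by the height `max (|A|³, |B|²)`:
* for every real `x` the proportion of the curves for which `Sel₂(E)` is finite and
  `dim Sel₂(E) ≤ (3 / 2) log log Z + x √(log log Z)` among those of height at most `Z` tends to the
  value at `x` of the distribution function of the Gaussian law of variance `5 / 2`;
* for every `s` the density of the curves with `dim Sel₂(E) ≤ s` is zero, in particular the density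
  of the curves with `dim Sel₂(E) = s`;
* for every `ε > 0` there is an `R` such that for all but a proportion `ε` of the curves of height at
  most `Z`, `Z ≥ Z₀`, the rank of `E` is at most `R` and the order of the 2-Selmer group of the
  quotient of `E` by its rational point of order two is at most `2 ^ R`. -/
theorem result :
    (∀ x : ℝ, Tendsto (fun Z : ℕ => proportion {t | Finite (Sel2H (E (cA t) (cB t))) ∧
      (dimSel (E (cA t) (cB t)) - 3 / 2 * loglog Z) / √(loglog Z) ≤ x} Z) atTop (𝓝 (G x))) ∧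
    (∀ s : ℕ, Tendsto (proportion {t | Finite (Sel2H (E (cA t) (cB t))) ∧
      Nat.card (Sel2H (E (cA t) (cB t))) ≤ 2 ^ s}) atTop (𝓝 0)) ∧
    ∀ ε : ℝ, 0 < ε → ∃ R Z₀ : ℕ, ∀ Z : ℕ, Z₀ ≤ Z → 1 - ε ≤ proportion
      {t | rank (E (cA t) (cB t)) ≤ R ∧ Finite (Sel2H (quotient t)) ∧
        Nat.card (Sel2H (quotient t)) ≤ 2 ^ R} Z := by
  obtain ⟨Λ, hΛ, hst⟩ := stat
  refine ⟨fun x => ?_, fun s => ?_, fun ε hε => ?_⟩
  · have h := ht_lim (0 : Fin 1) (1, 1) cc (fun _ => 1) (fun _ => one_ne_zero)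
      (fun l m h => absurd (Subsingleton.elim l m) h) Λ _ hst (fun _ => x)
    rw [muT_one] at h
    refine h.congr fun Z => ?_
    rw [prop_eq]
    congr 3
    ext t
    constructor
    · rintro ⟨h1, h2⟩
      refine ⟨h1 0, ?_⟩
      have h3 := h2 0
      unfold Lg at h3
      rw [hΛ] at h3
      exact h3
    · rintro ⟨h1, h2⟩
      refine ⟨fun _ => h1, fun l => ?_⟩
      unfold Lg
      rw [hΛ]
      exact h2
  · have h := ht_zero (1, 1) cc (fun _ => 1) (fun _ => one_ne_zero) Λ _ hst (s : ℝ)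
    refine h.congr fun Z => ?_
    rw [prop_eq]
    congr 3
    ext t
    constructor
    · rintro ⟨h1, h2⟩
      rw [hΛ] at h2
      refine ⟨h1 0, ?_⟩
      have hf := h1 0
      by_cases h0 : Nat.card (Sel2H (E (cA t) (cB t))) = 0
      · rw [h0]
        exact Nat.zero_le _
      · have hpos : (0 : ℝ) < (Nat.card (Sel2H (E (cA t) (cB t))) : ℝ) := by
          exact_mod_cast Nat.pos_of_ne_zero h0
        unfold dimSel at h2
        rw [Real.logb_le_iff_le_rpow (by norm_num) hpos, Real.rpow_natCast] at h2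
        exact_mod_cast h2
    · rintro ⟨h1, h2⟩
      refine ⟨fun _ => h1, ?_⟩
      rw [hΛ]
      unfold dimSel
      by_cases h0 : Nat.card (Sel2H (E (cA t) (cB t))) = 0
      · rw [h0, Nat.cast_zero, Real.logb_zero]
        exact Nat.cast_nonneg _
      · have hpos : (0 : ℝ) < (Nat.card (Sel2H (E (cA t) (cB t))) : ℝ) := by
          exact_mod_cast Nat.pos_of_ne_zero h0
        rw [Real.logb_le_iff_le_rpow (by norm_num) hpos, Real.rpow_natCast]
        exact_mod_cast h2
  · obtain ⟨R, Y0, h⟩ := ht_tight (0 : Fin 1) (1, 1) cc (fun _ => 1) (fun _ => one_ne_zero)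
      (fun l m h => absurd (Subsingleton.elim l m) h) ε hε
    refine ⟨R + 2, Y0, fun Z hZ => ?_⟩
    obtain ⟨h1, h2⟩ := h Z hZ
    have h3 := h2 {t | rank (E (cA t) (cB t)) ≤ R + 2 ∧ Finite (Sel2H (quotient t)) ∧
      Nat.card (Sel2H (quotient t)) ≤ 2 ^ (R + 2)} (fun t ht => by
        obtain ⟨S, hS⟩ := ht (0, 0)
        have hS' : Pool.Agent.R431.NO.OkS (S - R) (S + R) R
          (1 * (3 * t.1 + 2 * t.2), 1 * (3 * t.1 - 2 * t.2)) := hS
        obtain ⟨k1, -⟩ := fam_sel hS'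
        obtain ⟨k2, k3, -⟩ := full_sel hS'
        refine ⟨?_, ?_, ?_⟩
        · have e : E (cA t) (cB t) = _ := E_eq t.1 t.2
          unfold rank
          rw [e]
          exact (k1.trans (by omega))
        · rw [quot_eq]
          exact k2
        · rw [quot_eq]
          exact k3)
    rw [prop_eq, le_div_iff₀ (by exact_mod_cast h1)]
    exact h3

end Pool.Agent.Results.MP_8cb858_nt.FourIsogenySelmerLaw
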