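import Mathlib
import Pool.Agent.R419.KL.Cor

/-!
# The `3`-Selmer groups of the cubic twists over `ℚ(√-3)`

`K` is the field of third roots of unity, `E_D : y² + D y = x³`, and `D` runs through all the cube-free
`D = 1` modulo `3` of `𝓞 K` whose norm is not `1` modulo `9`, ordered by the norm; there are at least
`c X` such `D` of norm at most `X`. `Sel3 D` is the `3`-Selmer group of `E_D` over `K`, and `SelRoot D`
is the Selmer group of the endomorphism `√-3`, whose kernel is `{0, (0, 0), (0, -D)}` (the Galois group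
acts trivially on it, so that there are no coboundaries).

* `SelRoot D` has order `3 ^ (r + 1)` and `Sel3 D` has order `3 ^ (s + 1)` with `r ≤ s ≤ 2 r`, and the
  rank of `E_D(K)` over `ℤ` is at most `2 r`. Here `3 ^ (r + 1)` is the number of the solutions
  modulo `3` of the equations `∑_i e_i χ_{ji} (v_i - v_j) = 0`, where `D = ∏ π_i ^ e_i` and
  `(π_i / π_j)_3 = ω ^ χ_{ji}`.
* For every `r` the proportion of the `D` with `SelRoot D` of order `3 ^ (r + 1)` tends to
  `prob r = ∏_{i ≥ 0} (1 - 3^{-(2 i + 1)}) / ((3 - 1) (9 - 1) ⋯ (3 ^ r - 1))`; these limits sum to one.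
* The proportion of the `D` for which `Sel3 D` has order `3`, the smallest possible value (there is a
  point of order three), tends to `prob 0 = ∏_{i ≥ 0} (1 - 3^{-(2 i + 1)}) = 0.639...`.
* The lower density of the `D` with `dim Sel3 D ≤ 2 r + 1` is at least `prob 0 + ⋯ + prob r`, and the
  lower density of the `D` with `dim Sel3 D ≥ r + 1` is at least `1 - prob 0 - ⋯ - prob (r - 1)`, a
  positive number. In particular, the dimension of `Sel3 D` takes unboundedly large values on sets of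
  positive lower density.

Built on the work of helper31, helper275, helper968, helper994, helper170, helper697, helper363,
helper710, helper804, helper528, helper85, helper688, helper474, helper433, helper550, helper699,
helper145, helper350, helper696 and helper703 (projects XK, XL, squarefree `D`) and of the seats named
in the headers of `Pool/Agent/Y703/CT` and of the files imported by
`Pool/Agent/Y696/CTK/Fin.lean`; cube-free `D` and the `3`-Selmer groups: helper419.
-/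

set_option autoImplicit false

namespace Pool.Agent.Results.MP_8cb858_nt.ThreeSelmerCubicTwists

open NumberField WeierstrassCurve Filter
open Pool.Agent.TH841.SH.D (Pt act Gal Coch)
open Pool.Agent.TH841.NF.D (IsShaCoc)
open scoped Classical

variable {K : Type} [Field K] [NumberField K]

/-- The curve `E_D : y² + D y = x³`. -/
def curve {K : Type} [Field K] (D : K) : WeierstrassCurve K := ⟨0, 0, D, 0, 0⟩

/-- The group of the continuous cocycles of the absolute Galois group of `K` with values in `E_D[3]`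
that are coboundaries in `E_D` at all the places of `K`. -/
def Cocycles (D : K) : AddSubgroup (Coch (curve D)) where
  carrier := {f | IsShaCoc (curve D) f ∧ ∀ σ, 3 • f σ = 0}
  zero_mem' := (Pool.Agent.R419.KL.coc3 D).zero_mem'
  add_mem' := (Pool.Agent.R419.KL.coc3 D).add_mem'
  neg_mem' := (Pool.Agent.R419.KL.coc3 D).neg_mem'

/-- The group of the coboundaries of the points of `E_D[3]`. -/
def Coboundaries (D : K) : AddSubgroup (Coch (curve D)) where
  carrier := {f | ∃ P : Pt (curve D) (AlgebraicClosure K), 3 • P = 0 ∧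
    ∀ σ : Gal K, f σ = act (curve D) σ.toAlgHom P - P}
  zero_mem' := (Pool.Agent.R419.KL.cob3 D).zero_mem'
  add_mem' := (Pool.Agent.R419.KL.cob3 D).add_mem'
  neg_mem' := (Pool.Agent.R419.KL.cob3 D).neg_mem'

/-- The `3`-Selmer group of `E_D` over `K`: the kernel of `H¹(K, E_D[3]) → ∏ H¹(K_v, E_D)`. -/
def Sel3 (D : K) : Type := Cocycles D ⧸ (Coboundaries D).addSubgroupOf (Cocycles D)

/-- The Selmer group of the endomorphism `√-3`: the continuous cocycles with values in its kernel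
`{0, (0, 0), (0, -D)}` that are coboundaries in `E_D` at all the places of `K`. -/
def SelRoot (D : K) : Set (Coch (curve D)) :=
  {f | IsShaCoc (curve D) f ∧ ∀ σ, f σ = 0 ∨ ∃ y h, f σ = Affine.Point.some 0 y h}

/-- The rank of `E_D(K)` over `ℤ`. -/
noncomputable def rank (D : K) : ℕ := Module.finrank ℤ (curve D).toAffine.Point

/-- `D` is cube-free and `1` modulo `3`, and its norm is not `1` modulo `9`. -/
def InClass (D : 𝓞 K) : Prop :=
  (3 : 𝓞 K) ∣ D - 1 ∧ (∀ x : 𝓞 K, x ^ 3 ∣ D → IsUnit x) ∧ ¬ (9 : ℤ) ∣ Algebra.norm ℤ D - 1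

/-- The `D` of the class of norm at most `X`. -/
def upTo (K : Type) [Field K] [NumberField K] (X : ℕ) : Set (𝓞 K) :=
  {D : 𝓞 K | Algebra.norm ℤ D ≤ X ∧ InClass D}

/-- The proportion of the `D` with the property `P` among the `D` of the class of norm at most
`X`. -/
noncomputable def proportion (P : 𝓞 K → Prop) (X : ℕ) : ℝ :=
  ({D : 𝓞 K | Algebra.norm ℤ D ≤ X ∧ InClass D ∧ P D}.ncard : ℝ) / ((upTo K X).ncard : ℝ)

/-- `D` is the product of the powers `π i ^ e i`, `e i = 1, 2`, of the prime elements `π i`, which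
are different and `1` modulo `3`, and `(π i / π j)_3 = η ^ χ j i`. -/
def IsFact (η D : 𝓞 K) (n : ℕ) (π : Fin n → 𝓞 K) (e : Fin n → ZMod 3)
    (χ : Fin n → Fin n → ZMod 3) : Prop :=
  (∀ i, Prime (π i) ∧ (3 : 𝓞 K) ∣ π i - 1 ∧ e i ≠ 0) ∧ D = ∏ i, π i ^ (e i).val ∧
  ∀ i j, i ≠ j → ¬ π j ∣ π i ∧
    π j ∣ π i ^ (((Algebra.norm ℤ (π j)).natAbs - 1) / 3) - η ^ (χ j i).val

/-- The number of the solutions `v` of the equations `∑_i e_i χ_{ji} (v_i - v_j) = 0`. -/
noncomputable def solutions {n : ℕ} (e : Fin n → ZMod 3) (χ : Fin n → Fin n → ZMod 3) : ℕ :=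
  Nat.card {v : Fin n → ZMod 3 // ∀ j, ∑ i, e i * χ j i * (v i - v j) = 0}

/-- The order of the Selmer group of `√-3` is the number of the solutions of the equations given by
the cubic residue symbols of the prime divisors of `D`. -/
def Explicit (D : 𝓞 K) : Prop :=
  (∃ (η : 𝓞 K) (n : ℕ) (π : Fin n → 𝓞 K) (e : Fin n → ZMod 3) (χ : Fin n → Fin n → ZMod 3),
    η ^ 2 + η + 1 = 0 ∧ IsFact η D n π e χ) ∧
  ∀ (η : 𝓞 K) (n : ℕ) (π : Fin n → 𝓞 K) (e : Fin n → ZMod 3) (χ : Fin n → Fin n → ZMod 3),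
    η ^ 2 + η + 1 = 0 → IsFact η D n π e χ → (SelRoot (D : K)).ncard = solutions e χ

/-- `∏_{i ≥ 0} (1 - 3^{-(2 i + 1)}) / ((3 - 1) (9 - 1) ⋯ (3 ^ r - 1))`. -/
noncomputable def prob (r : ℕ) : ℝ :=
  (∏' i : ℕ, (1 - (1 / 3 : ℝ) ^ (2 * i + 1))) / ∏ i ∈ Finset.range r, ((3 : ℝ) ^ (i + 1) - 1)

theorem result (K : Type) [Field K] [NumberField K] [IsCyclotomicExtension {3} ℚ K] :
    (∃ c : ℝ, 0 < c ∧ ∃ X₀ : ℕ, ∀ X : ℕ, X₀ ≤ X → c * X ≤ ((upTo K X).ncard : ℝ)) ∧
    (∀ D : 𝓞 K, InClass D →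
      (∃ r s : ℕ, (SelRoot (D : K)).ncard = 3 ^ (r + 1) ∧ Nat.card (Sel3 (D : K)) = 3 ^ (s + 1) ∧
        r ≤ s ∧ s ≤ 2 * r ∧ rank (D : K) ≤ 2 * r) ∧ Explicit D) ∧
    (∀ r : ℕ, Tendsto (proportion (fun D : 𝓞 K => (SelRoot (D : K)).ncard = 3 ^ (r + 1))) atTop
      (nhds (prob r))) ∧
    Tendsto (proportion (fun D : 𝓞 K => Nat.card (Sel3 (D : K)) = 3)) atTop (nhds (prob 0)) ∧
    (∀ (r : ℕ) (ε : ℝ), 0 < ε →
      (∀ᶠ X : ℕ in atTop, ∑ i ∈ Finset.range (r + 1), prob i - ε ≤
        proportion (fun D : 𝓞 K => Nat.card (Sel3 (D : K)) ≤ 3 ^ (2 * r + 1)) X) ∧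
      ∀ᶠ X : ℕ in atTop, 1 - ∑ i ∈ Finset.range r, prob i - ε ≤
        proportion (fun D : 𝓞 K => 3 ^ (r + 1) ≤ Nat.card (Sel3 (D : K))) X) ∧
    ((∀ r, 0 < prob r) ∧ 0.639 < prob 0 ∧ prob 0 < 0.6391 ∧ HasSum prob 1) := by
  obtain ⟨ω, hω⟩ : ∃ ω : K, ω ^ 2 + ω + 1 = 0 := by
    obtain ⟨⟨j, hj⟩, -⟩ := Pool.Agent.Y455.CTK.jex K
    have hww : (Pool.Agent.Y692.QS.w : Pool.Agent.Y692.QS.Ei) ^ 2 + Pool.Agent.Y692.QS.w + 1 = 0 := by
      decide
    refine ⟨((j Pool.Agent.Y692.QS.w : 𝓞 K) : K), ?_⟩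
    have h2 := congrArg (fun z => ((j z : 𝓞 K) : K)) hww
    simp only [map_add, map_pow, map_one, map_zero] at h2
    exact h2
  obtain ⟨h1, h2, h3, h4⟩ := Pool.Agent.R419.KL.finalSel3 K ω hω
  exact ⟨(Pool.Agent.R419.KF.final K).1, fun D hD => ⟨h1 D hD,
    ((Pool.Agent.R419.KF.final K).2.1 D hD).1.1, (Pool.Agent.R419.KL.oneK hD).2⟩, h2, h3, h4,
    Pool.Agent.R419.KL.prob_facts⟩

end Pool.Agent.Results.MP_8cb858_nt.ThreeSelmerCubicTwists
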