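import Mathlib
import Pool.Agent.R419.KL.Sel3
import Pool.Agent.R338.CK.Fin2

/-!
# The `3`-Selmer groups of the cubic twists over `ℚ(√-3)` by products of a fixed number of primes

`K` is the field of third roots of unity, `E_D : y² + D y = x³`, and `D = π₀ π₁ ⋯ π_m` is a product of
`m + 1` prime elements of `𝓞 K` that are `1` modulo `3`; the norm of `D` is not `1` modulo `9`. The
primes `πᵢ` run through arbitrary disjoint sets `Pᵢ` of primes of norm at most `Xᵢ`. `Sel3 D` is the
`3`-Selmer group of `E_D` over `K`, and `SelRoot D` is the Selmer group of the endomorphism `√-3`, whose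
kernel is `{0, (0, 0), (0, -D)}` (the Galois group acts trivially on it, so that there are no
coboundaries). `law m r` is the proportion of the symmetric `m × m` matrices over the field with three
elements that have corank `r`.

Up to an error `144^(m+1) 3^(m(m+1)/2) C z^(-1/24) ∏ Xᵢ` (`z` at most all the `Xᵢ`) the number of the
tuples for which `SelRoot D` has order `3^(r+1)` is `law m r` times the number of all the tuples.

Built on the work of helper363 (bilinear sums), helper710 (equidistribution in a box), helper994,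
helper968, helper31, helper804, helper85, helper275 (linear algebra over the field with three elements),
helper703 (plan), helper696, helper891, helper954, helper737, helper811, helper350, helper455 and the
seats named in `Pool/Agent/Y703/CT` (the Selmer group of `√-3` and the rank over `K` for one `D`),
helper419 (the `3`-Selmer group of one `D`).
-/

set_option autoImplicit false

namespace Pool.Agent.Results.MP_8cb858_nt.TuplesOfPrimes

open NumberField WeierstrassCurve
open Pool.Agent.TH841.SH.D (Pt act Gal Coch)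
open Pool.Agent.TH841.NF.D (IsShaCoc)
open scoped Classical

/-- The curve `E_D : y² + D y = x³`. -/
def curve {K : Type} [Field K] (D : K) : WeierstrassCurve K := ⟨0, 0, D, 0, 0⟩

section
variable {K : Type} [Field K] [NumberField K]

/-- The group of the continuous cocycles of the absolute Galois group of `K` with values in `E_D[3]`
that are coboundaries in `E_D` at all the places of `K`. -/
def Cocycles (D : K) : AddSubgroup (Coch (curve D)) where
  carrier := {f | IsShaCoc (curve D) f ∧ ∀ σ, 3 • f σ = 0}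
  zero_mem' := (Pool.Agent.R419.KL.coc3 D).zero_mem'
  add_mem' := (Pool.Agent.R419.KL.coc3 D).add_mem'
  neg_mem' := (Pool.Agent.R419.KL.coc3 D).neg_mem'

/-- The group of the coboundaries of the points of `E_D[3]`. -/
def Coboundaries (D : K) : AddSubgroup (Coch (curve D)) where
  carrier := {f | ∃ P : Pt (curve D) (AlgebraicClosure K), 3 • P = 0 ∧
    ∀ σ : Gal K, f σ = act (curve D) σ.toAlgHom P - P}
  zero_mem' := (Pool.Agent.R419.KL.cob3 D).zero_mem'
  add_mem' := (Pool.Agent.R419.KL.cob3 D).add_mem'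
  neg_mem' := (Pool.Agent.R419.KL.cob3 D).neg_mem'

/-- The `3`-Selmer group of `E_D` over `K`: the kernel of `H¹(K, E_D[3]) → ∏ H¹(K_v, E_D)`. -/
def Sel3 (D : K) : Type := Cocycles D ⧸ (Coboundaries D).addSubgroupOf (Cocycles D)

/-- The Selmer group of the endomorphism `√-3`: the continuous cocycles with values in its kernel
`{0, (0, 0), (0, -D)}` that are coboundaries in `E_D` at all the places of `K`. -/
def SelRoot (D : K) : Set (Coch (curve D)) :=
  {f | IsShaCoc (curve D) f ∧ ∀ σ, f σ = 0 ∨ ∃ y h, f σ = Affine.Point.some 0 y h}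

/-- `P i` consists of prime elements `≡ 1` modulo `3` of norm at most `X i`, the sets are disjoint,
and `1 ≤ z ≤ X i` for all `i`. -/
structure Sets {m : ℕ} (P : Fin (m + 1) → Finset (𝓞 K)) (X : Fin (m + 1) → ℕ) (z : ℕ) : Prop where
  one_le : 1 ≤ z
  z_le : ∀ i, z ≤ X i
  primes : ∀ i, ∀ π ∈ P i, Prime π ∧ (3 : 𝓞 K) ∣ π - 1 ∧ Algebra.norm ℤ π ≤ X i
  disjoint : ∀ i l, i ≠ l → Disjoint (P i) (P l)

/-- The tuples `p` with `p i ∈ P i` for which the norm of `D = ∏ p i` is not `1` modulo `9`. -/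
def Tuples {m : ℕ} (P : Fin (m + 1) → Finset (𝓞 K)) : Set (Fin (m + 1) → 𝓞 K) :=
  {p | (∀ i, p i ∈ P i) ∧ ¬ (9 : ℤ) ∣ Algebra.norm ℤ (∏ i, p i) - 1}

/-- The number of the tuples such that `D = ∏ p i` has the property `Q`. -/
noncomputable def num {m : ℕ} (P : Fin (m + 1) → Finset (𝓞 K)) (Q : K → Prop) : ℕ :=
  {p | p ∈ Tuples P ∧ Q ((∏ i, p i : 𝓞 K) : K)}.ncard

end

/-- The proportion of the symmetric `m × m` matrices over the field with three elements that have
corank `r`. -/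
noncomputable def law (m r : ℕ) : ℝ :=
  (∏ i ∈ Finset.range ((m - r + 1) / 2), (1 - (1 / 3 : ℝ) ^ (2 * i + 1))) *
    ∏ j ∈ Finset.range r, (1 - (1 / 3 : ℝ) ^ (m - j)) / (3 ^ (j + 1) - 1)

/-- The error term. -/
noncomputable def err (C : ℝ) (m : ℕ) (X : Fin (m + 1) → ℕ) (z : ℕ) : ℝ :=
  144 ^ (m + 1) * 3 ^ (m * (m + 1) / 2) * C * (z : ℝ) ^ (-(1 / 24 : ℝ)) * ∏ i, (X i : ℝ)

theorem result : ∃ C : ℝ, 0 < C ∧ ∀ (K : Type) [Field K] [NumberField K]
    [IsCyclotomicExtension {3} ℚ K] (m : ℕ) (P : Fin (m + 1) → Finset (𝓞 K))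
    (X : Fin (m + 1) → ℕ) (z : ℕ), Sets P X z →
    (∀ p ∈ Tuples P, ∃ r s : ℕ, (SelRoot ((∏ i, p i : 𝓞 K) : K)).ncard = 3 ^ (r + 1) ∧
      Nat.card (Sel3 ((∏ i, p i : 𝓞 K) : K)) = 3 ^ (s + 1) ∧ r ≤ m ∧ r ≤ s ∧ s ≤ 2 * r) ∧
    (∀ r : ℕ, |(num P (fun D : K => (SelRoot D).ncard = 3 ^ (r + 1)) : ℝ) -
      law m r * ((Tuples P).ncard : ℝ)| ≤ err C m X z) ∧
    |(num P (fun D : K => Nat.card (Sel3 D) = 3) : ℝ) - law m 0 * ((Tuples P).ncard : ℝ)| ≤
      err C m X z ∧
    ∀ r : ℕ,
      (∑ i ∈ Finset.range (r + 1), law m i) * ((Tuples P).ncard : ℝ) - (r + 1) * err C m X z ≤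
        (num P (fun D : K => Nat.card (Sel3 D) ≤ 3 ^ (2 * r + 1)) : ℝ) ∧
      (1 - ∑ i ∈ Finset.range r, law m i) * ((Tuples P).ncard : ℝ) - r * err C m X z ≤
        (num P (fun D : K => 3 ^ (r + 1) ≤ Nat.card (Sel3 D)) : ℝ) := by
  obtain ⟨C, hC1, hC⟩ := Pool.Agent.R338.CK.fin2
  refine ⟨C, by linarith, fun K _ _ _ m P X z hS => ?_⟩
  obtain ⟨ω, hω⟩ : ∃ ω : K, ω ^ 2 + ω + 1 = 0 := by
    obtain ⟨j, hj⟩ := Pool.Agent.R338.CK.Y455.jex K
    have hww : (Pool.Agent.Y692.QS.w : Pool.Agent.Y692.QS.Ei) ^ 2 + Pool.Agent.Y692.QS.w + 1 = 0 := by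
      decide
    refine ⟨((j Pool.Agent.Y692.QS.w : 𝓞 K) : K), ?_⟩
    have h2 := congrArg (fun z => ((j z : 𝓞 K) : K)) hww
    simp only [map_add, map_pow, map_one, map_zero] at h2
    exact h2
  obtain ⟨h1, h2, h3, -⟩ := hC K ω hω m P X z ⟨hS.one_le, hS.z_le, hS.primes, hS.disjoint⟩
  have hT : Pool.Agent.R338.CK.cls P = Tuples P := rfl
  have hlaw : ∀ r, Pool.Agent.R338.CK.law m r = law m r := fun r => rfl
  have herr : Pool.Agent.R338.CK.err C m X z = err C m X z := rfl
  simp only [hT, hlaw, herr] at h1 h2 h3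
  -- the facts on one tuple
  have key : ∀ p ∈ Tuples P, (SelRoot ((∏ i, p i : 𝓞 K) : K)).ncard =
        3 ^ (Pool.Agent.R338.CK.W ω p + 1) ∧
      ∃ s : ℕ, Nat.card (Sel3 ((∏ i, p i : 𝓞 K) : K)) = 3 ^ (s + 1) ∧
        Pool.Agent.R338.CK.W ω p ≤ s ∧ s ≤ 2 * Pool.Agent.R338.CK.W ω p := by
    intro p hp
    obtain ⟨-, hk, -, -, h0, hc⟩ := h1 p hp
    refine ⟨?_, Pool.Agent.R419.KL.sel3_facts h0 hω hc hk⟩
    rw [pow_succ', ← hk]
    exact Pool.Agent.Y703.XL.Inf.sel_card h0 hω hc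
  have hinj : ∀ a b : ℕ, 3 ^ (a + 1) = 3 ^ (b + 1) ↔ a = b := by
    intro a b
    constructor
    · intro h
      have := Nat.pow_right_injective (le_refl 2 |>.trans (by norm_num) : 2 ≤ 3) h
      omega
    · rintro rfl
      rfl
  have hfin : (Tuples P).Finite := Pool.Agent.R338.CK.cls_fin P
  refine ⟨fun p hp => ?_, fun r => ?_, ?_, fun r => ⟨?_, ?_⟩⟩
  · obtain ⟨ha, s, hb, hc, hd⟩ := key p hp
    exact ⟨_, s, ha, hb, (h1 p hp).1, hc, hd⟩
  · have e : num P (fun D : K => (SelRoot D).ncard = 3 ^ (r + 1)) =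
        {p | p ∈ Tuples P ∧ Pool.Agent.R338.CK.W ω p = r}.ncard := by
      unfold num
      congr 1
      ext p
      refine and_congr_right fun hp => ?_
      show (SelRoot ((∏ i, p i : 𝓞 K) : K)).ncard = 3 ^ (r + 1) ↔ _
      rw [(key p hp).1, hinj]
    rw [e]
    exact h2 r
  · have e : num P (fun D : K => Nat.card (Sel3 D) = 3) =
        {p | p ∈ Tuples P ∧ Pool.Agent.R338.CK.W ω p = 0}.ncard := by
      unfold num
      congr 1
      ext p
      refine and_congr_right fun hp => ?_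
      obtain ⟨-, s, hb, hc, hd⟩ := key p hp
      show Nat.card (Sel3 ((∏ i, p i : 𝓞 K) : K)) = 3 ↔ _
      rw [hb]
      constructor
      · intro h
        have := (hinj s 0).1 (by rw [h]; norm_num)
        omega
      · intro h
        have : s = 0 := by omega
        rw [this]
        norm_num
    rw [e]
    exact h2 0
  · have h4 := (abs_le.1 (h3 (r + 1))).1
    have e : {p | p ∈ Tuples P ∧ Pool.Agent.R338.CK.W ω p < r + 1}.ncard ≤
        num P (fun D : K => Nat.card (Sel3 D) ≤ 3 ^ (2 * r + 1)) := by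
      unfold num
      refine Set.ncard_le_ncard (fun p hp => ⟨hp.1, ?_⟩) (hfin.subset fun p hp => hp.1)
      obtain ⟨-, s, hb, hc, hd⟩ := key p hp.1
      have h5 : Pool.Agent.R338.CK.W ω p < r + 1 := hp.2
      show Nat.card (Sel3 ((∏ i, p i : 𝓞 K) : K)) ≤ 3 ^ (2 * r + 1)
      rw [hb]
      exact Nat.pow_le_pow_right (by norm_num) (by omega)
    have e' : (({p | p ∈ Tuples P ∧ Pool.Agent.R338.CK.W ω p < r + 1}.ncard : ℕ) : ℝ) ≤
        (num P (fun D : K => Nat.card (Sel3 D) ≤ 3 ^ (2 * r + 1)) : ℝ) := by exact_mod_cast e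
    push_cast at h4
    linarith
  · have h4 := (abs_le.1 (h3 r)).2
    have e : (Tuples P).ncard ≤ {p | p ∈ Tuples P ∧ Pool.Agent.R338.CK.W ω p < r}.ncard +
        num P (fun D : K => 3 ^ (r + 1) ≤ Nat.card (Sel3 D)) := by
      unfold num
      refine le_trans (Set.ncard_le_ncard (fun p hp => ?_) ?_) (Set.ncard_union_le _ _)
      · by_cases h5 : Pool.Agent.R338.CK.W ω p < r
        · exact Or.inl ⟨hp, h5⟩
        · right
          refine ⟨hp, ?_⟩
          obtain ⟨-, s, hb, hc, hd⟩ := key p hp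
          show 3 ^ (r + 1) ≤ Nat.card (Sel3 ((∏ i, p i : 𝓞 K) : K))
          rw [hb]
          exact Nat.pow_le_pow_right (by norm_num) (by omega)
      · exact (hfin.subset fun p hp => hp.1).union (hfin.subset fun p hp => hp.1)
    have e' : ((Tuples P).ncard : ℝ) ≤
        (({p | p ∈ Tuples P ∧ Pool.Agent.R338.CK.W ω p < r}.ncard : ℕ) : ℝ) +
        (num P (fun D : K => 3 ^ (r + 1) ≤ Nat.card (Sel3 D)) : ℝ) := by exact_mod_cast e
    linarith

end Pool.Agent.Results.MP_8cb858_nt.TuplesOfPrimes
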